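import Pool.Agent.Helper38.IA.St

/-!
# Project IA, module M4: update formulas and numbers of increments
-/

set_option autoImplicit false

namespace Pool.Agent.Helper15.IA38

open Finset Pool.Agent.Helper93.IA Pool.Agent.Helper38.IA

private theorem inc1 {X Y : Type} [DecidableEq X] [DecidableEq Y] (A : Finset X) (B C : Finset Y)
    (R : ℕ) (N : Fin R → X → Y) (hN : ∀ s, Set.BijOn (N s) A C)
    (hd : ∀ s s', s ≠ s' → ∀ x ∈ A, N s x ≠ N s' x) (x : X) :
    ∑ s, (if x ∈ A ∧ N s x ∈ B then 1 else 0) ≤ (B ∩ C).card := by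
  rw [← Finset.card_filter]
  refine Finset.card_le_card_of_injOn (fun s => N s x) ?_ ?_
  · intro s hs
    simp only [coe_filter, mem_univ, true_and, Set.mem_setOf_eq] at hs
    have h1 : N s x ∈ C := by exact_mod_cast (hN s).mapsTo (by exact_mod_cast hs.1)
    simp [hs.2, h1]
  · intro s hs s' hs' h
    simp only [coe_filter, mem_univ, true_and, Set.mem_setOf_eq] at hs hs'
    by_contra hne
    exact hd s s' hne x hs.1 h

private theorem inc2 {X Y : Type} [DecidableEq X] [DecidableEq Y] (A B : Finset X)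
    (R : ℕ) (N : Fin R → X → Y)
    (hd : ∀ s s', s ≠ s' → ∀ x ∈ A, N s x ≠ N s' x) (y : Y) :
    (univ.filter fun s => ∃ x ∈ A, x ∈ B ∧ N s x = y).card ≤ (B ∩ A).card := by
  classical
  by_cases hX : Nonempty X
  · have hch : ∀ s : Fin R, ∃ x : X, (∃ x ∈ A, x ∈ B ∧ N s x = y) → x ∈ A ∧ x ∈ B ∧ N s x = y := by
      intro s
      by_cases h : ∃ x ∈ A, x ∈ B ∧ N s x = y
      · obtain ⟨x, h1, h2, h3⟩ := h
        exact ⟨x, fun _ => ⟨h1, h2, h3⟩⟩
      · exact ⟨Classical.choice hX, fun h' => absurd h' h⟩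
    choose f hf using hch
    refine Finset.card_le_card_of_injOn f ?_ ?_
    · intro s hs
      simp only [coe_filter, mem_univ, true_and, Set.mem_setOf_eq] at hs
      obtain ⟨h1, h2, _⟩ := hf s hs
      simp [h1, h2]
    · intro s hs s' hs' h
      simp only [coe_filter, mem_univ, true_and, Set.mem_setOf_eq] at hs hs'
      by_contra hne
      obtain ⟨h1, _, h3⟩ := hf s hs
      obtain ⟨_, _, h3'⟩ := hf s' hs'
      rw [← h] at h3'
      exact hd s s' hne (f s) h1 (h3.trans h3'.symm)
  · have : (univ.filter fun s => ∃ x ∈ A, x ∈ B ∧ N s x = y) = ∅ := by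
      apply Finset.filter_eq_empty_iff.2
      rintro s _ ⟨x, _⟩
      exact hX ⟨x⟩
    rw [this]
    simp

theorem hM4 : StM4 := by
  intro X Y ι _ _ _ P Q M S i0 hi0
  refine ⟨?_, ?_, ?_⟩
  · intro N i x
    unfold BX
    rw [Finset.filter_insert]
    have e : (S.filter fun j => x ∈ P j ∧ Function.update M i0 N j x ∈ Q i) =
        S.filter fun j => x ∈ P j ∧ M j x ∈ Q i := by
      apply Finset.filter_congr
      intro j hj
      have hne : j ≠ i0 := fun h => hi0 (h ▸ hj)
      rw [Function.update_of_ne hne]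
    rw [e, Function.update_self]
    split_ifs with h
    · rw [Finset.card_insert_of_notMem]
      intro h'
      exact hi0 (Finset.mem_filter.1 h').1
    · rfl
  · intro N i y
    unfold BY
    rw [Finset.filter_insert]
    have e : (S.filter fun j => ∃ x ∈ P j, x ∈ P i ∧ Function.update M i0 N j x = y) =
        S.filter fun j => ∃ x ∈ P j, x ∈ P i ∧ M j x = y := by
      apply Finset.filter_congr
      intro j hj
      have hne : j ≠ i0 := fun h => hi0 (h ▸ hj)
      rw [Function.update_of_ne hne]
    rw [e, Function.update_self]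
    split_ifs with h
    · rw [Finset.card_insert_of_notMem]
      intro h'
      exact hi0 (Finset.mem_filter.1 h').1
    · rfl
  · intro R N hN hd
    refine ⟨fun i x => inc1 (P i0) (Q i) (Q i0) R N hN hd x, fun i y => ?_⟩
    rw [← Finset.card_filter]
    exact inc2 (P i0) (P i) R N hd y

end Pool.Agent.Helper15.IA38
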